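import Pool.Agent.H78Z.Vor.Defs

namespace Pool.Agent.H78Z.Vor

open SimpleGraph

variable {V : Type} {G : SimpleGraph V}

lemma dist_getVert_le (hG : G.Connected) {x y : V} (p : G.Walk x y) (i n : ℕ) :
    G.dist (p.getVert i) (p.getVert (i + n)) ≤ n := by
  induction n with
  | zero => simp
  | succ n ih =>
    have h1 : G.dist (p.getVert (i + n)) (p.getVert (i + n + 1)) ≤ 1 := by
      by_cases h : i + n < p.length
      · exact (dist_eq_one_iff_adj.2 (p.adj_getVert_succ h)).le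
      · rw [p.getVert_of_length_le (by omega), p.getVert_of_length_le (by omega)]
        simp
    have h2 := hG.dist_triangle (u := p.getVert i) (v := p.getVert (i + n))
      (w := p.getVert (i + n + 1))
    rw [← add_assoc]
    omega

lemma geod_dist (hG : G.Connected) {x y : V} {p : G.Walk x y} (hp : IsGeod p) {i : ℕ}
    (hi : i ≤ p.length) :
    G.dist x (p.getVert i) = i ∧ G.dist (p.getVert i) y + i = G.dist x y := by
  have h1 := dist_getVert_le hG p 0 i
  have h2 := dist_getVert_le hG p i (p.length - i)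
  rw [show i + (p.length - i) = p.length by omega, p.getVert_length] at h2
  rw [zero_add, p.getVert_zero] at h1
  have h3 := hG.dist_triangle (u := x) (v := p.getVert i) (w := y)
  unfold IsGeod at hp
  omega

lemma geod_support (hG : G.Connected) {x y : V} {p : G.Walk x y} (hp : IsGeod p) {a : V}
    (ha : a ∈ p.support) : G.dist x a + G.dist a y = G.dist x y := by
  obtain ⟨i, rfl, hi⟩ := Walk.mem_support_iff_exists_getVert.1 ha
  have := geod_dist hG hp hi
  omega

lemma geod_support2 (hG : G.Connected) {x y : V} {p : G.Walk x y} (hp : IsGeod p) {a b : V}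
    (ha : a ∈ p.support) (hb : b ∈ p.support) :
    G.dist a b + G.dist b y ≤ G.dist a y ∨ G.dist a b + G.dist a y ≤ G.dist b y := by
  obtain ⟨i, rfl, hi⟩ := Walk.mem_support_iff_exists_getVert.1 ha
  obtain ⟨j, rfl, hj⟩ := Walk.mem_support_iff_exists_getVert.1 hb
  have h1 := geod_dist hG hp hi
  have h2 := geod_dist hG hp hj
  rcases le_total i j with h | h
  · have := dist_getVert_le hG p i (j - i)
    rw [show i + (j - i) = j by omega] at this
    left; omega
  · have := dist_getVert_le hG p j (i - j)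
    rw [show j + (i - j) = i by omega, dist_comm] at this
    right; omega

/-- thinness of all triangles with vertex `x` (first side only). -/
def ThinAt (G : SimpleGraph V) (x : V) (d : ℕ) : Prop :=
  ∀ (y z : V) (p : G.Walk x y) (q : G.Walk y z) (r : G.Walk z x), IsGeod p → IsGeod q → IsGeod r →
    ∀ v ∈ p.support, ∃ w, (w ∈ q.support ∨ w ∈ r.support) ∧ G.dist v w ≤ d

lemma step1 (hG : G.Connected) {x : V} {d : ℕ} (h : ThinAt G x d) (y w : V) (r : G.Walk w x)
    (hr : IsGeod r) (t : ℕ) (ht : 2 * t + 2 * d + G.dist y w < G.dist x y + G.dist x w) :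
    ∃ u u', G.dist x u = t ∧ G.dist u y + t = G.dist x y ∧ u' ∈ r.support ∧ G.dist u u' ≤ d := by
  obtain ⟨p, hp⟩ := hG.exists_walk_length_eq_dist x y
  obtain ⟨q, hq⟩ := hG.exists_walk_length_eq_dist y w
  have h0 := hG.dist_triangle (u := x) (v := y) (w := w)
  have hi : t ≤ p.length := by omega
  have h1 := geod_dist hG (p := p) hp hi
  obtain ⟨a, ha, hda⟩ := h y w p q r hp hq hr _ (p.getVert_mem_support t)
  rcases ha with ha | ha
  · exfalso
    have h2 := geod_support hG (p := q) hq ha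
    have h3 := hG.dist_triangle (u := x) (v := p.getVert t) (w := a)
    have h4 := hG.dist_triangle (u := x) (v := a) (w := y)
    have h5 := hG.dist_triangle (u := x) (v := a) (w := w)
    rw [dist_comm (u := a) (v := y)] at h4
    omega
  · exact ⟨_, a, h1.1, h1.2, ha, hda⟩

/-- doubled Gromov product -/
noncomputable def gp (G : SimpleGraph V) (x y z : V) : ℤ :=
  (G.dist x y : ℤ) + G.dist x z - G.dist y z

lemma four_at (hG : G.Connected) {x : V} {d : ℕ} (h : ThinAt G x d) (y z w : V) :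
    gp G x y w - (6 * d + 2) ≤ gp G x y z ∨ gp G x w z - (6 * d + 2) ≤ gp G x y z := by
  by_contra hc
  push Not at hc
  obtain ⟨h1, h2⟩ := hc
  unfold gp at h1 h2
  obtain ⟨r, hr⟩ := hG.exists_walk_length_eq_dist w x
  have t0 := hG.dist_triangle (u := y) (v := x) (w := z)
  rw [dist_comm (u := y) (v := x)] at t0
  obtain ⟨t, ht⟩ : ∃ t : ℕ, G.dist x y + G.dist x z - G.dist y z + 4 * d + 1 ≤ 2 * t ∧
      2 * t ≤ G.dist x y + G.dist x z - G.dist y z + 4 * d + 2 :=
    ⟨(G.dist x y + G.dist x z - G.dist y z + 4 * d + 2) / 2, by omega, by omega⟩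
  obtain ⟨u, u', hu1, hu2, hu3, hu4⟩ := step1 hG h y w r hr t (by omega)
  obtain ⟨s, s', hs1, hs2, hs3, hs4⟩ := step1 hG h z w r hr t
    (by rw [dist_comm (u := z) (v := w)]; omega)
  have a1 := hG.dist_triangle (u := x) (v := u) (w := u')
  have a2 := hG.dist_triangle (u := x) (v := u') (w := u)
  have a3 := hG.dist_triangle (u := x) (v := s) (w := s')
  have a4 := hG.dist_triangle (u := x) (v := s') (w := s)
  have a5 := geod_support2 hG (p := r) hr hu3 hs3
  have a6 := hG.dist_triangle (u := y) (v := u) (w := z)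
  have a7 := hG.dist_triangle (u := u) (v := u') (w := z)
  have a8 := hG.dist_triangle (u := u') (v := s') (w := z)
  have a9 := hG.dist_triangle (u := s') (v := s) (w := z)
  rw [dist_comm (u := u') (v := u)] at a2
  rw [dist_comm (u := s') (v := s)] at a4 a9
  rw [dist_comm (u := y) (v := u)] at a6
  rw [dist_comm (u := u') (v := x), dist_comm (u := s') (v := x)] at a5
  omega

lemma gp_comm (x y z : V) : gp G x y z = gp G x z y := by
  unfold gp; rw [dist_comm (u := y) (v := z)]; ring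

lemma four_change {x : V} {K : ℤ}
    (h : ∀ y z w, gp G x y w - K ≤ gp G x y z ∨ gp G x w z - K ≤ gp G x y z) (m y z w : V) :
    gp G m y w - 2 * K ≤ gp G m y z ∨ gp G m w z - 2 * K ≤ gp G m y z := by
  have e1 : gp G m y w - gp G m y z = gp G x y w + gp G x z m - gp G x y z - gp G x w m := by
    unfold gp
    rw [dist_comm (u := z) (v := m), dist_comm (u := w) (v := m)]; ring
  have e2 : gp G m w z - gp G m y z = gp G x w z + gp G x y m - gp G x y z - gp G x w m := by
    unfold gp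
    rw [dist_comm (u := y) (v := m), dist_comm (u := w) (v := m)]; ring
  have h1 := h y z w
  have h2 := h y z m
  have h3 := h w m y
  have h4 := h w m z
  rw [gp_comm x m z] at h2
  rw [gp_comm x w y] at h3
  omega

lemma chain {m : V} {K : ℤ} (hK : 0 ≤ K)
    (h : ∀ y z w, gp G m y w - K ≤ gp G m y z ∨ gp G m w z - K ≤ gp G m y z) (R : ℤ) (k : ℕ) :
    ∀ γ : ℕ → V, (∀ n < 2 ^ k, R ≤ gp G m (γ n) (γ (n + 1))) →
      R - k * K ≤ gp G m (γ 0) (γ (2 ^ k)) := by
  induction k with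
  | zero => intro γ hγ; simpa using hγ 0 (by simp)
  | succ k ih =>
    intro γ hγ
    have h1 := ih γ (fun n hn => hγ n (by rw [pow_succ]; omega))
    have h2 := ih (fun n => γ (2 ^ k + n)) (fun n hn => hγ (2 ^ k + n) (by rw [pow_succ]; omega))
    simp only [add_zero] at h2
    rw [show 2 ^ k + 2 ^ k = 2 ^ (k + 1) by rw [pow_succ]; omega] at h2
    have h3 := h (γ 0) (γ (2 ^ (k + 1))) (γ (2 ^ k))
    push_cast
    rcases h3 with h3 | h3 <;> linarith

lemma lip_dist (hG : G.Connected) {X : V → ℝ} (hX : ∀ u v, G.Adj u v → |X u - X v| ≤ 2)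
    (u v : V) : |X u - X v| ≤ 2 * G.dist u v := by
  obtain ⟨p, hp⟩ := hG.exists_walk_length_eq_dist u v
  rw [← hp]
  clear hp
  induction p with
  | nil => simp
  | @cons a b c hab p ih =>
    have := hX a b hab
    rw [Walk.length_cons]
    push_cast
    have h3 := abs_sub_le (X a) (X b) (X c)
    linarith

/-- A grid patch of radius `R` in the graph. -/
def GPatch (G : SimpleGraph V) (R : ℕ) : Prop :=
  ∃ (g : ℤ → ℤ → V) (X Y : V → ℝ), (∀ u v, G.Adj u v → |X u - X v| ≤ 2) ∧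
    (∀ u v, G.Adj u v → |Y u - Y v| ≤ 2) ∧
    (∀ i l : ℤ, |i| ≤ R → |l| ≤ R → |X (g i l) - i| ≤ 1 ∧ |Y (g i l) - l| ≤ 1) ∧
    (∀ i l : ℤ, |i| ≤ R → |l| ≤ R → G.Adj (g i l) (g (i + 1) l) ∧ G.Adj (g i l) (g i (l + 1)))

lemma grid_step {R : ℕ} {g : ℤ → ℤ → V}
    (h : ∀ i l : ℤ, |i| ≤ R → |l| ≤ R → G.Adj (g i l) (g (i + 1) l) ∧ G.Adj (g i l) (g i (l + 1)))
    {i l i' l' : ℤ} (hi : |i| ≤ R) (hl : |l| ≤ R) (hi' : |i'| ≤ R) (hl' : |l'| ≤ R)
    (hs : (i' = i ∧ l' = l) ∨ (i' = i + 1 ∧ l' = l) ∨ (i = i' + 1 ∧ l' = l) ∨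
      (i' = i ∧ l' = l + 1) ∨ (i' = i ∧ l = l' + 1)) :
    G.dist (g i l) (g i' l') ≤ 1 := by
  rcases hs with ⟨rfl, rfl⟩ | ⟨rfl, rfl⟩ | ⟨rfl, rfl⟩ | ⟨rfl, rfl⟩ | ⟨rfl, rfl⟩
  · simp
  · exact (dist_eq_one_iff_adj.2 (h _ _ hi hl).1).le
  · exact (dist_eq_one_iff_adj.2 (h _ _ hi' hl').1.symm).le
  · exact (dist_eq_one_iff_adj.2 (h _ _ hi hl).2).le
  · exact (dist_eq_one_iff_adj.2 (h _ _ hi' hl').2.symm).le

lemma exists_pow (K : ℤ) (hK : 0 ≤ K) : ∃ j : ℕ, (j + 2 : ℤ) * K + 10 < 2 ^ j := by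
  obtain ⟨N, rfl⟩ := Int.eq_ofNat_of_zero_le hK
  have h := tendsto_pow_const_div_const_pow_of_one_lt 1 (r := 2) (by norm_num)
  have h2 := (h.eventually (gt_mem_nhds (show (0 : ℝ) < 1 / (3 * N + 11) by positivity))).and
    (Filter.eventually_ge_atTop 1)
  obtain ⟨j, hj, hj1⟩ := h2.exists
  refine ⟨j, ?_⟩
  rw [pow_one, div_lt_div_iff₀ (by positivity) (by positivity)] at hj
  have hj1' : (1 : ℝ) ≤ j := by exact_mod_cast hj1
  have hN : (0 : ℝ) ≤ N := by positivity
  have : ((j : ℝ) + 2) * N + 10 < 2 ^ j := by nlinarith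
  exact_mod_cast this

theorem not_thinAt (hG : G.Connected) (hp : ∀ R, GPatch G R) (x : V) (d : ℕ) : ¬ ThinAt G x d := by
  intro h
  have h4 := four_change (four_at hG h)
  set K : ℤ := 2 * (6 * d + 2) with hKdef
  have hK : 0 ≤ K := by positivity
  obtain ⟨j, hj⟩ := exists_pow K hK
  obtain ⟨g, X, Y, hX, hY, hc, ha⟩ := hp (2 ^ j)
  set R : ℕ := 2 ^ j with hR
  have hRj : ((2 : ℤ) ^ j) = R := by rw [hR]; push_cast; rfl
  rw [hRj] at hj
  have hR10 : (10 : ℤ) < R := by nlinarith [mul_nonneg (show (0 : ℤ) ≤ j + 2 by positivity) hK]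
  have hR10' : (10 : ℝ) < R := by exact_mod_cast hR10
  obtain ⟨p, hpg⟩ := hG.exists_walk_length_eq_dist (g (-R) 0) (g R 0)
  have hy := (hc (-R) 0 (by simp) (by simp)).1
  have hz := (hc R 0 (by simp) (by simp)).1
  push_cast at hy hz
  rw [abs_le] at hy hz
  have hex : ∃ n, 0 ≤ X (p.getVert n) := ⟨p.length, by rw [p.getVert_length]; linarith⟩
  classical
  have hn1 := Nat.find_spec hex
  have hnle : Nat.find hex ≤ p.length := Nat.find_min' hex (by rw [p.getVert_length]; linarith)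
  have hn0 : Nat.find hex ≠ 0 := by
    intro h0
    rw [h0, p.getVert_zero] at hn1
    linarith
  obtain ⟨n, hn⟩ := Nat.exists_eq_succ_of_ne_zero hn0
  have hn2 : ¬ 0 ≤ X (p.getVert n) := Nat.find_min hex (by omega)
  rw [hn] at hn1 hnle
  have hn3 := hX _ _ (p.adj_getVert_succ (i := n) (by omega))
  set m := p.getVert (n + 1) with hm
  have hm2 : X m ≤ 2 := by
    rw [abs_le] at hn3
    push Not at hn2
    linarith
  have hm0 : 0 ≤ X m := hn1
  have hgp : gp G m (g (-R) 0) (g R 0) = 0 := by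
    have := geod_support hG (p := p) hpg (p.getVert_mem_support (n + 1))
    unfold gp
    rw [← hm, dist_comm (v := m)] at this
    omega
  obtain ⟨σ, hσ, hσY⟩ : ∃ σ : ℤ, (σ = 1 ∨ σ = -1) ∧ σ * Y m ≤ 0 := by
    rcases le_total (Y m) 0 with h0 | h0
    · exact ⟨1, Or.inl rfl, by simpa using h0⟩
    · exact ⟨-1, Or.inr rfl, by simpa using h0⟩
  let I : ℕ → ℤ := fun n => max (-R) (min ((n : ℤ) - 2 * R) R)
  let L : ℕ → ℤ := fun n => max 0 (min (min (n : ℤ) R) (4 * R - n))
  have hI : ∀ n, |I n| ≤ R := fun n => by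
    rw [abs_le]; simp only [I]; omega
  have hL : ∀ n, |σ * L n| ≤ R := fun n => by
    rw [abs_le]; simp only [L]; rcases hσ with rfl | rfl <;> omega
  have hfar : ∀ n, (R : ℤ) - 3 ≤ 2 * G.dist m (g (I n) (σ * L n)) := by
    intro n
    have e1 := lip_dist hG hX m (g (I n) (σ * L n))
    have e2 := lip_dist hG hY m (g (I n) (σ * L n))
    obtain ⟨e3, e4⟩ := hc _ _ (hI n) (hL n)
    have hcase : I n = -R ∨ I n = R ∨ L n = R := by
      simp only [I, L]; omega
    have : (R : ℝ) - 3 ≤ 2 * G.dist m (g (I n) (σ * L n)) := by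
      rw [abs_le] at e1 e2 e3 e4
      rcases hcase with e | e | e
      · rw [e] at e1 e3 ⊢; push_cast at e3; linarith
      · rw [e] at e1 e3 ⊢; push_cast at e3; linarith
      · rw [e] at e2 e4 ⊢
        rcases hσ with rfl | rfl
        · push_cast at e4 hσY; linarith
        · push_cast at e4 hσY; linarith
    exact_mod_cast this
  have hch := chain hK (h4 m) (R - 4) (j + 2) (fun n => g (I n) (σ * L n)) (by
    intro n hn
    have e1 := hfar n
    have e2 := hfar (n + 1)
    have e3 := grid_step ha (hI n) (hL n) (hI (n + 1)) (hL (n + 1)) (by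
      simp only [I, L]; push_cast
      rcases hσ with rfl | rfl <;> omega)
    unfold gp
    omega)
  have e0 : I 0 = -R ∧ L 0 = 0 := by simp only [I, L]; omega
  have e4 : (2 : ℕ) ^ (j + 2) = 4 * R := by rw [hR]; ring
  have e5 : I (4 * R) = R ∧ L (4 * R) = 0 := by simp only [I, L]; push_cast; omega
  simp only [e4, e0.1, e0.2, e5.1, e5.2, mul_zero, hgp] at hch
  push_cast at hch
  linarith

theorem exists_fat (hG : G.Connected) (hp : ∀ R, GPatch G R) (x : V) (δ : ℝ) :
    ∃ (y z : V) (p : G.Walk x y) (q : G.Walk y z) (r : G.Walk z x),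
      IsGeod p ∧ IsGeod q ∧ IsGeod r ∧ ¬ IsThin δ p q r := by
  by_contra hc
  push Not at hc
  refine not_thinAt hG hp x ⌈δ⌉₊ ?_
  intro y z p q r h1 h2 h3 v hv
  obtain ⟨w, hw, hd⟩ := (hc y z p q r h1 h2 h3).1 v hv
  refine ⟨w, hw, ?_⟩
  have := hd.trans (Nat.le_ceil δ)
  exact_mod_cast this

end Pool.Agent.H78Z.Vor
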