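import Pool.Agent.H78Z.Vor.Defs

namespace Pool.Agent.H78Z.Vor

open UpperHalfPlane Real

lemma lorentz_zero {a b c A B C : ℝ} (ha : 0 < a) (hc : 0 < c) (h1 : a * c - b ^ 2 = 1)
    (h2 : A * C = B ^ 2) (h3 : a * C + c * A = 2 * b * B) : A = 0 ∧ B = 0 ∧ C = 0 := by
  have e : (a * C - c * A) ^ 2 + 4 * B ^ 2 = 0 := by
    have : (a * C - c * A) ^ 2 = (a * C + c * A) ^ 2 - 4 * (a * c) * (A * C) := by ring
    rw [this, h3, h2, show a * c = 1 + b ^ 2 by linarith]; ring
  have hB : B = 0 := by nlinarith [sq_nonneg (a * C - c * A), sq_nonneg B]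
  have hD : a * C - c * A = 0 := by nlinarith [sq_nonneg (a * C - c * A), sq_nonneg B]
  rw [hB] at h3
  have h4 : a * C = 0 := by linarith
  have h5 : c * A = 0 := by linarith
  exact ⟨(mul_eq_zero.1 h5).resolve_left hc.ne', hB, (mul_eq_zero.1 h4).resolve_left ha.ne'⟩

noncomputable def al (z : ℍ) : ℝ := 1 / z.im
noncomputable def be (z : ℍ) : ℝ := z.re / z.im
noncomputable def ga (z : ℍ) : ℝ := (z.re ^ 2 + z.im ^ 2) / z.im

lemma cosh_eq (z w : ℍ) : 2 * cosh (dist z w) = al z * ga w + ga z * al w - 2 * be z * be w := by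
  rw [cosh_dist']
  unfold al be ga
  have := z.im_pos.ne'
  have := w.im_pos.ne'
  field_simp
  ring

lemma seg_comb {a b z : ℍ} (hz : z ∈ seg a b) (p : ℍ) :
    sinh (dist a b) * cosh (dist z p) =
      sinh (dist z b) * cosh (dist a p) + sinh (dist a z) * cosh (dist b p) := by
  have hz' : dist a b = dist a z + dist z b := Eq.symm hz
  set s := dist a z with hs
  set t := dist z b with ht
  set A := sinh (s + t) * al z - sinh t * al a - sinh s * al b with hA
  set B := sinh (s + t) * be z - sinh t * be a - sinh s * be b with hB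
  set C := sinh (s + t) * ga z - sinh t * ga a - sinh s * ga b with hC
  have key : ∀ w : ℍ, al w * C + ga w * A - 2 * be w * B =
      2 * (sinh (s + t) * cosh (dist z w) - sinh t * cosh (dist a w) - sinh s * cosh (dist b w)) := by
    intro w
    have e1 := cosh_eq z w
    have e2 := cosh_eq a w
    have e3 := cosh_eq b w
    rw [hA, hB, hC]
    linear_combination (-sinh (s + t)) * e1 + sinh t * e2 + sinh s * e3
  have kz : al z * C + ga z * A - 2 * be z * B = 0 := by
    rw [key, dist_self, cosh_zero, dist_comm b z, ← hs, ← ht, sinh_add]; ring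
  have ka : al a * C + ga a * A - 2 * be a * B = 0 := by
    rw [key, dist_self, cosh_zero, dist_comm z a, dist_comm b a, ← hs, hz', sinh_add, cosh_add]
    linear_combination 2 * sinh t * cosh_sq' s
  have kb : al b * C + ga b * A - 2 * be b * B = 0 := by
    rw [key, dist_self, cosh_zero, ← ht, hz', sinh_add, cosh_add]
    linear_combination 2 * sinh s * cosh_sq' t
  have hn : A * C = B ^ 2 := by
    have : 2 * (A * C - B ^ 2) = sinh (s + t) * (al z * C + ga z * A - 2 * be z * B)
        - sinh t * (al a * C + ga a * A - 2 * be a * B)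
        - sinh s * (al b * C + ga b * A - 2 * be b * B) := by
      have e1 : A * C + C * A - 2 * B * B =
        (sinh (s + t) * al z - sinh t * al a - sinh s * al b) * C +
        (sinh (s + t) * ga z - sinh t * ga a - sinh s * ga b) * A -
        2 * (sinh (s + t) * be z - sinh t * be a - sinh s * be b) * B := by
        rw [← hA, ← hB, ← hC]
      linear_combination e1
    rw [kz, ka, kb] at this
    linarith
  have hy := z.im_pos
  have h1 : al z * ga z - be z ^ 2 = 1 := by
    unfold al be ga; field_simp; ring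
  obtain ⟨h2, h3, h4⟩ := lorentz_zero (a := al z) (b := be z) (c := ga z) (A := A) (B := B) (C := C)
    (by unfold al; positivity) (by unfold ga; positivity) h1 hn (by linarith)
  have := key p
  rw [h2, h3, h4] at this
  rw [hz']
  linarith

lemma cosh_le_iff (z p q : ℍ) : cosh (dist z p) ≤ cosh (dist z q) ↔ dist z p ≤ dist z q := by
  rw [cosh_le_cosh, abs_of_nonneg dist_nonneg, abs_of_nonneg dist_nonneg]

lemma seg_subset_cell {S : Set ℍ} {p a b : ℍ} (hab : a ≠ b) (ha : a ∈ cell S p)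
    (hb : b ∈ cell S p) : seg a b ⊆ cell S p := by
  intro z hz q hq
  have e1 := seg_comb hz p
  have e2 := seg_comb hz q
  have h1 := (cosh_le_iff a p q).2 (ha q hq)
  have h2 := (cosh_le_iff b p q).2 (hb q hq)
  have h3 : 0 < sinh (dist a b) := sinh_pos_iff.2 (dist_pos.2 hab)
  have h4 : 0 ≤ sinh (dist z b) := sinh_nonneg_iff.2 dist_nonneg
  have h5 : 0 ≤ sinh (dist a z) := sinh_nonneg_iff.2 dist_nonneg
  rw [← cosh_le_iff]
  refine le_of_mul_le_mul_left ?_ h3
  rw [e1, e2]
  gcongr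

lemma adj_iff {S : Set ℍ} {p q : S} :
    (vorGraph S).Adj p q ↔ p ≠ q ∧ (cell S p ∩ cell S q).Nontrivial := by
  constructor
  · rintro ⟨h, a, b, hab, h2⟩
    exact ⟨h, a, h2 (by simp [seg]), b, h2 (by simp [seg]), hab⟩
  · rintro ⟨h, a, ha, b, hb, hab⟩
    exact ⟨h, a, b, hab, Set.subset_inter (seg_subset_cell hab ha.1 hb.1)
      (seg_subset_cell hab ha.2 hb.2)⟩

lemma isClosed_cell (S : Set ℍ) (p : ℍ) : IsClosed (cell S p) := by
  have : cell S p = ⋂ q ∈ S, {z | dist z p ≤ dist z q} := by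
    ext z; simp [cell]
  rw [this]
  exact isClosed_biInter fun q _ => isClosed_le (by fun_prop) (by fun_prop)

/-- local finiteness -/
def LocFin (S : Set ℍ) : Prop := ∀ n : ℕ, (S ∩ Metric.closedBall UpperHalfPlane.I n).Finite

lemma LocFin.ball {S : Set ℍ} (h : LocFin S) (z : ℍ) (r : ℝ) :
    (S ∩ Metric.closedBall z r).Finite := by
  obtain ⟨n, hn⟩ := exists_nat_ge (r + dist z UpperHalfPlane.I)
  exact (h n).subset (Set.inter_subset_inter_right _ (Metric.closedBall_subset_closedBall' hn))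

lemma LocFin.countable {S : Set ℍ} (h : LocFin S) : S.Countable := by
  have : S = ⋃ n : ℕ, S ∩ Metric.closedBall UpperHalfPlane.I n := by
    rw [← Set.inter_iUnion, Metric.iUnion_closedBall_nat, Set.inter_univ]
  rw [this]
  exact Set.countable_iUnion fun n => (h n).countable

lemma LocFin.cover {S : Set ℍ} (h : LocFin S) (hne : S.Nonempty) (z : ℍ) :
    ∃ p ∈ S, z ∈ cell S p := by
  obtain ⟨p0, hp0⟩ := hne
  obtain ⟨p, hp, hmin⟩ := Set.exists_min_image (S ∩ Metric.closedBall z (dist z p0))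
    (fun p => dist z p) (h.ball z _) ⟨p0, hp0, by simp [dist_comm]⟩
  refine ⟨p, hp.1, fun q hq => ?_⟩
  by_cases hq2 : q ∈ Metric.closedBall z (dist z p0)
  · exact hmin q ⟨hq, hq2⟩
  · have h1 := hp.2
    rw [Metric.mem_closedBall, dist_comm] at h1 hq2
    linarith

lemma LocFin.locallyFinite {S : Set ℍ} (h : LocFin S) :
    LocallyFinite (fun p : S => cell S p) := by
  intro z
  rcases S.eq_empty_or_nonempty with rfl | ⟨p0, hp0⟩
  · exact ⟨Set.univ, Filter.univ_mem, Set.toFinite _⟩
  refine ⟨Metric.ball z 1, Metric.ball_mem_nhds z one_pos, ?_⟩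
  have hf := (h.ball z (2 + dist z p0)).preimage (Subtype.val_injective (p := (· ∈ S))).injOn
  refine hf.subset ?_
  rintro p ⟨w, hw1, hw2⟩
  refine ⟨p.2, ?_⟩
  have h1 := hw1 p0 hp0
  rw [Metric.mem_ball] at hw2
  rw [Metric.mem_closedBall]
  have h2 := dist_triangle (p : ℍ) w z
  have h3 := dist_triangle w z p0
  rw [dist_comm (p : ℍ) w] at h2
  linarith

lemma preconnected_compl {W : Set ℍ} (hW : W.Countable) : IsPreconnected Wᶜ := by
  let f : ℂ → ℍ := fun w => ⟨⟨w.re, exp w.im⟩, exp_pos _⟩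
  have hf : Continuous f := by
    rw [UpperHalfPlane.isEmbedding_coe.continuous_iff]
    have : (UpperHalfPlane.coe ∘ f) = fun w : ℂ => (w.re : ℂ) + (exp w.im : ℝ) * Complex.I := by
      ext w
      apply Complex.ext <;> simp [f, ← Complex.ofReal_exp]
    rw [this]
    fun_prop
  have hinj : Function.Injective f := by
    intro a b hab
    have h1 : (f a).re = (f b).re := by rw [hab]
    have h2 : (f a).im = (f b).im := by rw [hab]
    exact Complex.ext h1 (exp_injective h2)
  have hsurj : Function.Surjective f := by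
    intro z
    refine ⟨⟨z.re, log z.im⟩, ?_⟩
    apply UpperHalfPlane.ext
    apply Complex.ext
    · rfl
    · exact exp_log z.im_pos
  have h1 : IsConnected (f ⁻¹' W)ᶜ :=
    (hW.preimage_of_injOn hinj.injOn).isConnected_compl_of_one_lt_rank (by simp)
  have h2 := (h1.image f hf.continuousOn).isPreconnected
  rwa [← Set.preimage_compl, Set.image_preimage_eq _ hsurj] at h2

lemma mem_cell_self {S : Set ℍ} (p : ℍ) : p ∈ cell S p := fun q _ => by simp

lemma eq_of_mem_cell {S : Set ℍ} {p q : ℍ} (hq : q ∈ S) (h : q ∈ cell S p) : q = p := by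
  have := h q hq
  rw [dist_self] at this
  exact dist_le_zero.1 this

theorem LocFin.connected {S : Set ℍ} (h : LocFin S) (hne : S.Nonempty) :
    (vorGraph S).Connected := by
  haveI : Nonempty S := hne.to_subtype
  haveI : Countable S := h.countable.to_subtype
  refine ⟨fun x y => ?_⟩
  by_contra hxy
  let W : Set ℍ := ⋃ pq : {pq : S × S // pq.1 ≠ pq.2 ∧ ¬ (vorGraph S).Adj pq.1 pq.2},
    cell S pq.1.1 ∩ cell S pq.1.2
  have hW : W.Countable := by
    refine Set.countable_iUnion fun pq => Set.Subsingleton.countable ?_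
    by_contra hc
    rw [Set.not_subsingleton_iff] at hc
    exact pq.2.2 (adj_iff.2 ⟨pq.2.1, hc⟩)
  have hS : ∀ p : S, (p : ℍ) ∈ Wᶜ := by
    intro p hp
    obtain ⟨pq, h1, h2⟩ := Set.mem_iUnion.1 hp
    exact pq.2.1 (Subtype.ext ((eq_of_mem_cell p.2 h1).symm.trans (eq_of_mem_cell p.2 h2)))
  have hc := isPreconnected_closed_iff.1 (preconnected_compl hW)
    (⋃ p : {p : S // (vorGraph S).Reachable x p}, cell S p.1)
    (⋃ p : {p : S // ¬ (vorGraph S).Reachable x p}, cell S p.1)
    ((h.locallyFinite.comp_injective Subtype.val_injective).isClosed_iUnion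
      fun p => isClosed_cell _ _)
    ((h.locallyFinite.comp_injective Subtype.val_injective).isClosed_iUnion
      fun p => isClosed_cell _ _)
    (by
      intro z _
      obtain ⟨p, hp, hz⟩ := h.cover hne z
      by_cases hr : (vorGraph S).Reachable x ⟨p, hp⟩
      · exact Or.inl (Set.mem_iUnion.2 ⟨⟨⟨p, hp⟩, hr⟩, hz⟩)
      · exact Or.inr (Set.mem_iUnion.2 ⟨⟨⟨p, hp⟩, hr⟩, hz⟩))
    ⟨x, hS x, Set.mem_iUnion.2 ⟨⟨x, SimpleGraph.Reachable.refl x⟩, mem_cell_self _⟩⟩
    ⟨y, hS y, Set.mem_iUnion.2 ⟨⟨y, hxy⟩, mem_cell_self _⟩⟩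
  obtain ⟨z, hz, hz1, hz2⟩ := hc
  obtain ⟨p, hp⟩ := Set.mem_iUnion.1 hz1
  obtain ⟨q, hq⟩ := Set.mem_iUnion.1 hz2
  have hne' : p.1 ≠ q.1 := fun e => q.2 (e ▸ p.2)
  have hna : ¬ (vorGraph S).Adj p.1 q.1 := fun e => q.2 (p.2.trans e.reachable)
  exact hz (Set.mem_iUnion.2 ⟨⟨(p.1, q.1), hne', hna⟩, hp, hq⟩)

end Pool.Agent.H78Z.Vor
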