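import Pool.Agent.H78Z.Vor.A
import Pool.Agent.H78Z.Vor.B

namespace Pool.Agent.H78Z.Vor

open UpperHalfPlane Real

noncomputable def Q (z s : ℍ) : ℝ := ((s.re - z.re) ^ 2 + (s.im - z.im) ^ 2) / s.im

lemma le_iff_Q (z p q : ℍ) : dist z p ≤ dist z q ↔ Q z p ≤ Q z q := by
  have key : ∀ w : ℍ, cosh (dist z w) = 1 + Q z w / (2 * z.im) := by
    intro w
    rw [cosh_dist']
    unfold Q
    have := z.im_pos.ne'
    have := w.im_pos.ne'
    field_simp
    ring
  rw [← cosh_le_iff, key, key, add_le_add_iff_left,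
    div_le_div_iff_of_pos_right (by have := z.im_pos; positivity)]

lemma exists_center (cx h T : ℝ) (hT : T < h ^ 2) :
    ∃ z : ℍ, z.re = cx ∧ ∀ s : ℍ,
      Q z s = 2 * (h - z.im) + ((s.re - cx) ^ 2 + (s.im - h) ^ 2 - T) / s.im := by
  refine ⟨⟨⟨cx, √(h ^ 2 - T)⟩, sqrt_pos.2 (by linarith)⟩, rfl, fun s => ?_⟩
  have h1 : √(h ^ 2 - T) ^ 2 = h ^ 2 - T := sq_sqrt (by linarith)
  change ((s.re - cx) ^ 2 + (s.im - √(h ^ 2 - T)) ^ 2) / s.im = 2 * (h - √(h ^ 2 - T)) + _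
  have := s.im_pos.ne'
  field_simp
  linear_combination h1

lemma nontrivial_of {S : Set ℍ} {p q : ℍ} (hpq : p ≠ q) {mx my : ℝ} (hmy : 2 ≤ my)
    (h1 : |p.re + q.re - 2 * mx| ≤ 1 / 10) (h2 : |p.im + q.im - 2 * my| ≤ 1 / 10)
    (h3 : |p.re - q.re| ≤ 11 / 10) (h4 : |p.im - q.im| ≤ 11 / 10)
    (h5 : ∀ s ∈ S, s = p ∨ s = q ∨ 19 / 20 ≤ |s.re - mx| ∨ 19 / 20 ≤ |s.im - my|) :
    (cell S p ∩ cell S q).Nontrivial := by
  have main : ∀ τ : ℝ, 0 ≤ τ → τ ≤ 1 / 20 → ∃ z : ℍ, z ∈ cell S p ∩ cell S q ∧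
      z.re = (p.re + q.re) / 2 - τ * (q.im - p.im) ∧
      Q z p = 2 * ((p.im + q.im) / 2 + τ * (q.re - p.re) - z.im) := by
    intro τ h0 hτ
    set cx := (p.re + q.re) / 2 - τ * (q.im - p.im) with hcx
    set h := (p.im + q.im) / 2 + τ * (q.re - p.re) with hh
    set T := (1 / 4 + τ ^ 2) * ((p.re - q.re) ^ 2 + (p.im - q.im) ^ 2) with hT
    have b3 : (p.re - q.re) ^ 2 ≤ (11 / 10) ^ 2 := by rw [← sq_abs]; gcongr
    have b4 : (p.im - q.im) ^ 2 ≤ (11 / 10) ^ 2 := by rw [← sq_abs]; gcongr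
    have b5 : τ ^ 2 ≤ (1 / 20) ^ 2 := by gcongr
    have hT1 : T ≤ 62 / 100 := by
      calc T ≤ (1 / 4 + (1 / 20) ^ 2) * ((11 / 10) ^ 2 + (11 / 10) ^ 2) := by rw [hT]; gcongr
        _ ≤ 62 / 100 := by norm_num
    rw [abs_le] at h1 h2 h3 h4
    have c1 : |cx - mx| ≤ 11 / 100 := by
      rw [abs_le, hcx]; constructor <;> nlinarith
    have c2 : |h - my| ≤ 11 / 100 := by
      rw [abs_le, hh]; constructor <;> nlinarith
    have c3 : T < h ^ 2 := by
      rw [abs_le] at c2; nlinarith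
    obtain ⟨z, hz1, hz2⟩ := exists_center cx h T c3
    have ep : Q z p = 2 * (h - z.im) := by
      rw [hz2, show (p.re - cx) ^ 2 + (p.im - h) ^ 2 - T = 0 by rw [hcx, hh, hT]; ring]; simp
    have eq : Q z q = 2 * (h - z.im) := by
      rw [hz2, show (q.re - cx) ^ 2 + (q.im - h) ^ 2 - T = 0 by rw [hcx, hh, hT]; ring]; simp
    have es : ∀ s ∈ S, 2 * (h - z.im) ≤ Q z s := by
      intro s hs
      rcases h5 s hs with rfl | rfl | h6
      · exact ep.ge
      · exact eq.ge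
      · rw [hz2]
        have : T ≤ (s.re - cx) ^ 2 + (s.im - h) ^ 2 := by
          rcases h6 with h6 | h6
          · have e1 := abs_sub_le s.re cx mx
            have e2 : 84 / 100 ≤ |s.re - cx| := by linarith
            have e3 : (84 / 100) ^ 2 ≤ (s.re - cx) ^ 2 := by rw [← sq_abs (s.re - cx)]; gcongr
            nlinarith [sq_nonneg (s.im - h)]
          · have e1 := abs_sub_le s.im h my
            have e2 : 84 / 100 ≤ |s.im - h| := by linarith
            have e3 : (84 / 100) ^ 2 ≤ (s.im - h) ^ 2 := by rw [← sq_abs (s.im - h)]; gcongr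
            nlinarith [sq_nonneg (s.re - cx)]
        have h7 := s.im_pos
        have : 0 ≤ ((s.re - cx) ^ 2 + (s.im - h) ^ 2 - T) / s.im :=
          div_nonneg (by linarith) h7.le
        linarith
    refine ⟨z, ⟨fun s hs => ?_, fun s hs => ?_⟩, hz1, ep⟩
    · rw [le_iff_Q, ep]; exact es s hs
    · rw [le_iff_Q, eq]; exact es s hs
  obtain ⟨z, hz, hz1, hz2⟩ := main 0 le_rfl (by norm_num)
  obtain ⟨w, hw, hw1, hw2⟩ := main (1 / 20) (by norm_num) le_rfl
  refine ⟨z, hz, w, hw, fun e => hpq ?_⟩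
  subst e
  apply UpperHalfPlane.ext
  apply Complex.ext
  · change p.re = q.re
    linarith
  · change p.im = q.im
    linarith

/-- open square -/
def box (a b r : ℝ) : Set ℍ := {z | |z.re - a| < r ∧ |z.im - b| < r}

/-- `S` looks like a slightly perturbed square lattice in a square. -/
def Patch (S : Set ℍ) (M : ℕ) (a H : ℝ) : Prop :=
  (∀ i l : ℤ, |i| ≤ M → |l| ≤ M → ∃ p, S ∩ box (a + i) (H + l) (1 / 20) = {p}) ∧
  (∀ s ∈ S, s ∈ box a H (M + 1 / 2) →
    ∃ i l : ℤ, |i| ≤ M ∧ |l| ≤ M ∧ s ∈ box (a + i) (H + l) (1 / 20))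

lemma short_edge {S : Set ℍ} {M : ℕ} {a H : ℝ} (hP : Patch S M a H) {u v : S}
    (huv : (vorGraph S).Adj u v) (h1 : |(u : ℍ).re - a| ≤ M - 2) (h2 : |(u : ℍ).im - H| ≤ M - 2) :
    |(u : ℍ).re - (v : ℍ).re| ≤ 2 ∧ |(u : ℍ).im - (v : ℍ).im| ≤ 2 := by
  obtain ⟨z, hz, -⟩ := (adj_iff.1 huv).2
  set r := dist (u : ℍ) z with hr
  set c : ℂ := (z.center r : ℂ) with hc
  set ρ := z.im * sinh r with hρ
  have eu : dist ((u : ℍ) : ℂ) c = ρ := dist_eq_iff_dist_coe_center_eq.1 rfl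
  have ev : dist ((v : ℍ) : ℂ) c = ρ := by
    refine dist_eq_iff_dist_coe_center_eq.1 ?_
    rw [hr, dist_comm (v : ℍ) z, dist_comm (u : ℍ) z]
    exact le_antisymm (hz.2 u u.2) (hz.1 v v.2)
  have es : ∀ s ∈ S, ρ ≤ dist (s : ℂ) c := by
    intro s hs
    refine not_lt.1 fun hlt => not_lt.2 ?_ (dist_lt_iff_dist_coe_center_lt.2 hlt)
    rw [hr, dist_comm s z, dist_comm (u : ℍ) z]
    exact hz.1 s hs
  have hρ1 : ρ ≤ 1 := by
    by_contra hlt
    push Not at hlt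
    set c' : ℂ := ((u : ℍ) : ℂ) + (c - (u : ℍ)) / ρ with hc'
    have hρ0 : (ρ : ℂ) ≠ 0 := by exact_mod_cast (by linarith : ρ ≠ 0)
    have n1 : ‖c - ((u : ℍ) : ℂ)‖ = ρ := by rw [← eu, dist_comm, dist_eq_norm]
    have n2 : ‖c' - ((u : ℍ) : ℂ)‖ = 1 := by
      rw [hc', add_sub_cancel_left, norm_div, n1, Complex.norm_real, Real.norm_eq_abs,
        abs_of_pos (by linarith), div_self (by linarith)]
    have n3 : ‖c' - c‖ = ρ - 1 := by
      have : c' - c = (c - (u : ℍ)) * (((1 - ρ) / ρ : ℝ) : ℂ) := by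
        rw [hc']; push_cast; field_simp; ring
      rw [this, norm_mul, n1, Complex.norm_real, Real.norm_eq_abs, abs_div,
        abs_of_neg (by linarith : 1 - ρ < 0), abs_of_pos (by linarith : 0 < ρ)]
      field_simp
      ring
    have n4 : |c'.re - (u : ℍ).re| ≤ 1 := by
      have := Complex.abs_re_le_norm (c' - ((u : ℍ) : ℂ))
      rw [n2] at this; simpa using this
    have n5 : |c'.im - (u : ℍ).im| ≤ 1 := by
      have := Complex.abs_im_le_norm (c' - ((u : ℍ) : ℂ))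
      rw [n2] at this; simpa using this
    have r1 := abs_sub_round (c'.re - a)
    have r2 := abs_sub_round (c'.im - H)
    rw [abs_le] at n4 n5 r1 r2 h1 h2
    have i1 : |round (c'.re - a)| ≤ (M : ℤ) := by
      have : |(round (c'.re - a) : ℝ)| ≤ M := by rw [abs_le]; constructor <;> linarith
      exact_mod_cast this
    have i2 : |round (c'.im - H)| ≤ (M : ℤ) := by
      have : |(round (c'.im - H) : ℝ)| ≤ M := by rw [abs_le]; constructor <;> linarith
      exact_mod_cast this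
    obtain ⟨s, hs⟩ := hP.1 _ _ i1 i2
    have hs' : s ∈ S ∩ box (a + round (c'.re - a)) (H + round (c'.im - H)) (1 / 20) := by
      rw [hs]; rfl
    obtain ⟨hsS, hs1, hs2⟩ := hs'
    rw [abs_lt] at hs1 hs2
    have n6 : ‖(s : ℂ) - c'‖ < 1 := by
      rw [← sq_lt_one_iff₀ (norm_nonneg _), Complex.sq_norm, Complex.normSq_apply]
      simp only [Complex.sub_re, Complex.sub_im, coe_re, coe_im]
      have a1 : |s.re - c'.re| ≤ 11 / 20 := by rw [abs_le]; constructor <;> linarith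
      have a2 : |s.im - c'.im| ≤ 11 / 20 := by rw [abs_le]; constructor <;> linarith
      have b1 : (s.re - c'.re) ^ 2 ≤ (11 / 20) ^ 2 := by rw [← sq_abs]; gcongr
      have b2 : (s.im - c'.im) ^ 2 ≤ (11 / 20) ^ 2 := by rw [← sq_abs]; gcongr
      nlinarith
    have n7 := es s hsS
    have n8 := dist_triangle (s : ℂ) c' c
    rw [dist_eq_norm (s : ℂ) c', dist_eq_norm c' c] at n8
    linarith
  have n9 : ‖((u : ℍ) : ℂ) - (v : ℍ)‖ ≤ 2 := by
    have := dist_triangle_right ((u : ℍ) : ℂ) (v : ℍ) c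
    rw [dist_eq_norm] at this
    linarith
  constructor
  · have := Complex.abs_re_le_norm (((u : ℍ) : ℂ) - (v : ℍ))
    simp only [Complex.sub_re, coe_re] at this
    linarith
  · have := Complex.abs_im_le_norm (((u : ℍ) : ℂ) - (v : ℍ))
    simp only [Complex.sub_im, coe_im] at this
    linarith

noncomputable def rad (L x y : ℝ) : ℝ := max 0 (L - max |x| |y|)

noncomputable def clamp (r x : ℝ) : ℝ := max (-r) (min x r)

lemma rad_lip {L x y x' y' : ℝ} (hx : |x - x'| ≤ 2) (hy : |y - y'| ≤ 2) :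
    |rad L x y - rad L x' y'| ≤ 2 := by
  unfold rad
  refine (abs_max_sub_max_le_max _ _ _ _).trans (max_le (by simp) ?_)
  rw [show L - max |x| |y| - (L - max |x'| |y'|) = -(max |x| |y| - max |x'| |y'|) by ring, abs_neg]
  exact (abs_max_sub_max_le_max _ _ _ _).trans (max_le ((abs_abs_sub_abs_le_abs_sub _ _).trans hx)
    ((abs_abs_sub_abs_le_abs_sub _ _).trans hy))

lemma clamp_lip {r x r' x' : ℝ} (hr : |r - r'| ≤ 2) (hx : |x - x'| ≤ 2) :
    |clamp r x - clamp r' x'| ≤ 2 := by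
  unfold clamp
  refine (abs_max_sub_max_le_max _ _ _ _).trans (max_le ?_ ?_)
  · rw [show -r - -r' = -(r - r') by ring, abs_neg]; exact hr
  · exact (abs_min_sub_min_le_max _ _ _ _).trans (max_le hx hr)

lemma clamp_zero (x : ℝ) : clamp 0 x = 0 := by
  unfold clamp
  rw [neg_zero]
  exact max_eq_left (min_le_right _ _)

lemma clamp_eq {r x : ℝ} (h : |x| ≤ r) : clamp r x = x := by
  unfold clamp
  rw [abs_le] at h
  rw [min_eq_left h.2, max_eq_right h.1]

lemma rad_zero {L x y : ℝ} (h : ¬ (|x| ≤ L ∧ |y| ≤ L)) : rad L x y = 0 := by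
  unfold rad
  refine max_eq_left ?_
  rw [← max_le_iff, not_le] at h
  linarith

theorem Patch.gpatch {S : Set ℍ} {R : ℕ} {a H : ℝ} (hP : Patch S (2 * R + 3) a H)
    (hH : (R : ℝ) + 3 ≤ H) : GPatch (vorGraph S) R := by
  set M := 2 * R + 3 with hM
  have hMr : (M : ℝ) = 2 * R + 3 := by rw [hM]; push_cast; ring
  have hMz : (M : ℤ) = 2 * R + 3 := by rw [hM]; push_cast; ring
  have hR0 : (0 : ℝ) ≤ R := by positivity
  have hg : ∀ i l : ℤ, ∃ p : S, |i| ≤ M → |l| ≤ M → S ∩ box (a + i) (H + l) (1 / 20) = {p.1} := by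
    intro i l
    by_cases h : |i| ≤ M ∧ |l| ≤ M
    · obtain ⟨p, hp⟩ := hP.1 i l h.1 h.2
      have : p ∈ S ∩ box (a + i) (H + l) (1 / 20) := by rw [hp]; rfl
      exact ⟨⟨p, this.1⟩, fun _ _ => hp⟩
    · obtain ⟨p, hp⟩ := hP.1 0 0 (by simp) (by simp)
      have : p ∈ S ∩ box (a + (0 : ℤ)) (H + (0 : ℤ)) (1 / 20) := by rw [hp]; rfl
      exact ⟨⟨p, this.1⟩, fun h1 h2 => (h ⟨h1, h2⟩).elim⟩
  choose g hg using hg
  have hgb : ∀ i l : ℤ, |i| ≤ M → |l| ≤ M →
      |(g i l : ℍ).re - (a + i)| < 1 / 20 ∧ |(g i l : ℍ).im - (H + l)| < 1 / 20 := by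
    intro i l hi hl
    have : (g i l : ℍ) ∈ S ∩ box (a + i) (H + l) (1 / 20) := by rw [hg i l hi hl]; rfl
    exact this.2
  have hgu : ∀ i l : ℤ, |i| ≤ M → |l| ≤ M → ∀ s ∈ S, s ∈ box (a + i) (H + l) (1 / 20) →
      s = g i l := by
    intro i l hi hl s hs hb
    have : s ∈ S ∩ box (a + i) (H + l) (1 / 20) := ⟨hs, hb⟩
    rw [hg i l hi hl] at this
    exact this
  have hedge : ∀ u v : S, (vorGraph S).Adj u v →
      (|(u : ℍ).re - a - ((v : ℍ).re - a)| ≤ 2 ∧ |(u : ℍ).im - H - ((v : ℍ).im - H)| ≤ 2) ∨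
      (rad (M - 2) ((u : ℍ).re - a) ((u : ℍ).im - H) = 0 ∧
        rad (M - 2) ((v : ℍ).re - a) ((v : ℍ).im - H) = 0) := by
    intro u v huv
    rw [sub_sub_sub_cancel_right, sub_sub_sub_cancel_right]
    by_cases hu : |(u : ℍ).re - a| ≤ M - 2 ∧ |(u : ℍ).im - H| ≤ M - 2
    · exact Or.inl (short_edge hP huv hu.1 hu.2)
    by_cases hv : |(v : ℍ).re - a| ≤ M - 2 ∧ |(v : ℍ).im - H| ≤ M - 2
    · have := short_edge hP huv.symm hv.1 hv.2
      rw [abs_sub_comm (v : ℍ).re, abs_sub_comm (v : ℍ).im] at this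
      exact Or.inl this
    exact Or.inr ⟨rad_zero hu, rad_zero hv⟩
  have hout : ∀ s ∈ S, ∀ mx my : ℝ, |mx - a| ≤ M - 1 / 2 → |my - H| ≤ M - 1 / 2 →
      s ∉ box a H (M + 1 / 2) → 19 / 20 ≤ |s.re - mx| ∨ 19 / 20 ≤ |s.im - my| := by
    intro s _ mx my h1 h2 h3
    by_contra hc
    push Not at hc
    apply h3
    have e1 := abs_sub_le s.re mx a
    have e2 := abs_sub_le s.im my H
    constructor <;> linarith
  refine ⟨g, fun v => clamp (rad (M - 2) ((v : ℍ).re - a) ((v : ℍ).im - H)) ((v : ℍ).re - a),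
    fun v => clamp (rad (M - 2) ((v : ℍ).re - a) ((v : ℍ).im - H)) ((v : ℍ).im - H),
    ?_, ?_, ?_, ?_⟩
  · intro u v huv
    rcases hedge u v huv with h | h
    · exact clamp_lip (rad_lip h.1 h.2) h.1
    · simp only [h.1, h.2, clamp_zero]; simp
  · intro u v huv
    rcases hedge u v huv with h | h
    · exact clamp_lip (rad_lip h.1 h.2) h.2
    · simp only [h.1, h.2, clamp_zero]; simp
  · intro i l hi hl
    obtain ⟨h1, h2⟩ := hgb i l (by omega) (by omega)
    have hi' : |(i : ℝ)| ≤ R := by exact_mod_cast hi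
    have hl' : |(l : ℝ)| ≤ R := by exact_mod_cast hl
    rw [abs_lt] at h1 h2
    rw [abs_le] at hi' hl'
    have e1 : |(g i l : ℍ).re - a| ≤ R + 1 / 20 := by rw [abs_le]; constructor <;> linarith
    have e2 : |(g i l : ℍ).im - H| ≤ R + 1 / 20 := by rw [abs_le]; constructor <;> linarith
    have e3 : R + 1 / 20 ≤ rad (M - 2) ((g i l : ℍ).re - a) ((g i l : ℍ).im - H) := by
      unfold rad
      refine le_max_of_le_right ?_
      have := max_le e1 e2
      linarith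
    simp only
    rw [clamp_eq (e1.trans e3), clamp_eq (e2.trans e3), abs_le, abs_le]
    refine ⟨⟨?_, ?_⟩, ?_, ?_⟩ <;> linarith
  · intro i l hi hl
    have hi' : |(i : ℝ)| ≤ R := by exact_mod_cast hi
    have hl' : |(l : ℝ)| ≤ R := by exact_mod_cast hl
    have hiM : |i| ≤ M := by omega
    have hlM : |l| ≤ M := by omega
    have hiM1 : |i + 1| ≤ M := by rw [abs_le] at hi ⊢; omega
    have hlM1 : |l + 1| ≤ M := by rw [abs_le] at hl ⊢; omega
    obtain ⟨p1, p2⟩ := hgb i l hiM hlM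
    rw [abs_lt] at p1 p2
    rw [abs_le] at hi' hl'
    constructor
    · obtain ⟨q1, q2⟩ := hgb (i + 1) l hiM1 hlM
      rw [abs_lt] at q1 q2
      push_cast at q1
      have hne : (g i l : ℍ) ≠ g (i + 1) l := by
        intro e; rw [e] at p1; linarith
      refine adj_iff.2 ⟨fun e => hne (by rw [e]), nontrivial_of hne (mx := a + i + 1 / 2)
        (my := H + l) (by linarith) ?_ ?_ ?_ ?_ ?_⟩
      iterate 4 (rw [abs_le]; constructor <;> linarith)
      intro s hs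
      by_cases hb : s ∈ box a H (M + 1 / 2)
      · obtain ⟨i', l', hi2, hl2, hb2⟩ := hP.2 s hs hb
        have hb3 := hb2
        obtain ⟨b1, b2⟩ := hb3
        rw [abs_lt] at b1 b2
        rcases (by omega : (i' = i ∧ l' = l) ∨ (i' = i + 1 ∧ l' = l) ∨ i' + 1 ≤ i ∨ i + 2 ≤ i' ∨
          l' + 1 ≤ l ∨ l + 1 ≤ l') with ⟨rfl, rfl⟩ | ⟨rfl, rfl⟩ | h | h | h | h
        · exact Or.inl (hgu _ _ hi2 hl2 s hs hb2)
        · exact Or.inr (Or.inl (hgu _ _ hi2 hl2 s hs hb2))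
        · have h' : (i' : ℝ) + 1 ≤ i := by exact_mod_cast h
          exact Or.inr (Or.inr (Or.inl (le_abs.2 (Or.inr (by linarith)))))
        · have h' : (i : ℝ) + 2 ≤ i' := by exact_mod_cast h
          exact Or.inr (Or.inr (Or.inl (le_abs.2 (Or.inl (by linarith)))))
        · have h' : (l' : ℝ) + 1 ≤ l := by exact_mod_cast h
          exact Or.inr (Or.inr (Or.inr (le_abs.2 (Or.inr (by linarith)))))
        · have h' : (l : ℝ) + 1 ≤ l' := by exact_mod_cast h
          exact Or.inr (Or.inr (Or.inr (le_abs.2 (Or.inl (by linarith)))))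
      · refine Or.inr (Or.inr (hout s hs _ _ ?_ ?_ hb)) <;>
          (rw [abs_le]; constructor <;> linarith)
    · obtain ⟨q1, q2⟩ := hgb i (l + 1) hiM hlM1
      rw [abs_lt] at q1 q2
      push_cast at q2
      have hne : (g i l : ℍ) ≠ g i (l + 1) := by
        intro e; rw [e] at p2; linarith
      refine adj_iff.2 ⟨fun e => hne (by rw [e]), nontrivial_of hne (mx := a + i)
        (my := H + l + 1 / 2) (by linarith) ?_ ?_ ?_ ?_ ?_⟩
      iterate 4 (rw [abs_le]; constructor <;> linarith)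
      intro s hs
      by_cases hb : s ∈ box a H (M + 1 / 2)
      · obtain ⟨i', l', hi2, hl2, hb2⟩ := hP.2 s hs hb
        have hb3 := hb2
        obtain ⟨b1, b2⟩ := hb3
        rw [abs_lt] at b1 b2
        rcases (by omega : (i' = i ∧ l' = l) ∨ (i' = i ∧ l' = l + 1) ∨ i' + 1 ≤ i ∨ i + 1 ≤ i' ∨
          l' + 1 ≤ l ∨ l + 2 ≤ l') with ⟨rfl, rfl⟩ | ⟨rfl, rfl⟩ | h | h | h | h
        · exact Or.inl (hgu _ _ hi2 hl2 s hs hb2)
        · exact Or.inr (Or.inl (hgu _ _ hi2 hl2 s hs hb2))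
        · have h' : (i' : ℝ) + 1 ≤ i := by exact_mod_cast h
          exact Or.inr (Or.inr (Or.inl (le_abs.2 (Or.inr (by linarith)))))
        · have h' : (i : ℝ) + 1 ≤ i' := by exact_mod_cast h
          exact Or.inr (Or.inr (Or.inl (le_abs.2 (Or.inl (by linarith)))))
        · have h' : (l' : ℝ) + 1 ≤ l := by exact_mod_cast h
          exact Or.inr (Or.inr (Or.inr (le_abs.2 (Or.inr (by linarith)))))
        · have h' : (l : ℝ) + 2 ≤ l' := by exact_mod_cast h
          exact Or.inr (Or.inr (Or.inr (le_abs.2 (Or.inl (by linarith)))))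
      · refine Or.inr (Or.inr (hout s hs _ _ ?_ ?_ hb)) <;>
          (rw [abs_le]; constructor <;> linarith)

end Pool.Agent.H78Z.Vor
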