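import Pool.Agent.H78Z.Vor.C

namespace Pool.Agent.H78Z.Vor

open UpperHalfPlane Real MeasureTheory ProbabilityTheory

noncomputable def pois (lam : ℝ) (A : Set ℍ) (k : ℕ) : ENNReal :=
  ENNReal.ofReal (Real.exp (-(lam * (volume A).toReal)) *
    (lam * (volume A).toReal) ^ k / (Nat.factorial k : ℝ))

variable {Ω : Type} [MeasurableSpace Ω] {P : Measure Ω} {lam : ℝ} {Pi : Ω → Set ℍ}

lemma IsPoissonPP.law' (h : IsPoissonPP P lam Pi) {ι : Type} [Fintype ι] (A : ι → Set ℍ)
    (k : ι → ℕ) (h1 : ∀ i, MeasurableSet (A i)) (h2 : ∀ i, Bornology.IsBounded (A i))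
    (h3 : ∀ i j, i ≠ j → Disjoint (A i) (A j)) :
    P {ω | ∀ i, (Pi ω ∩ A i).encard = k i} = ∏ i, pois lam (A i) (k i) := by
  let e := (Fintype.equivFin ι).symm
  have := h.law (Fintype.card ι) (fun i => A (e i)) (fun i => k (e i)) (fun i => h1 _)
    (fun i => h2 _) (fun i j hij => h3 _ _ (e.injective.ne hij))
  rw [← e.prod_comp (fun i => pois lam (A i) (k i))]
  rw [show {ω | ∀ i, (Pi ω ∩ A i).encard = k i} =
    {ω | ∀ i, (Pi ω ∩ A (e i)).encard = k (e i)} from ?_]
  · exact this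
  · ext ω
    exact (e.forall_congr_right (q := fun i => (Pi ω ∩ A i).encard = k i)).symm

lemma IsPoissonPP.finite [IsProbabilityMeasure P] (h : IsPoissonPP P lam Pi) (hlam : 0 < lam)
    {A : Set ℍ} (h1 : MeasurableSet A) (h2 : Bornology.IsBounded A) :
    ∀ᵐ ω ∂P, (Pi ω ∩ A).Finite := by
  have e1 : ∀ k : ℕ, P {ω | (Pi ω ∩ A).encard = k} = pois lam A k := by
    intro k
    have := h.law' (ι := Unit) (fun _ => A) (fun _ => k) (fun _ => h1) (fun _ => h2)
      (fun i j hij => (hij rfl).elim)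
    simpa using this
  have e2 : P (⋃ k : ℕ, {ω | (Pi ω ∩ A).encard = k}) = 1 := by
    rw [measure_iUnion ?_ (fun k => h.meas A h1 h2 k)]
    · simp only [e1, pois]
      have hs : HasSum (fun n : ℕ => rexp (-(lam * (volume A).toReal)) *
          (lam * (volume A).toReal) ^ n / (n.factorial : ℝ)) 1 := hasSum_one_poissonMeasure
        (⟨lam * (volume A).toReal, by positivity⟩ : NNReal)
      rw [← ENNReal.ofReal_tsum_of_nonneg (fun k => by positivity) hs.summable]
      exact (congrArg ENNReal.ofReal hs.tsum_eq).trans ENNReal.ofReal_one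
    · intro i j hij
      rw [Function.onFun, Set.disjoint_left]
      intro ω hi hj
      exact hij (by exact_mod_cast (Eq.symm hi).trans hj)
  have e3 := (mem_ae_iff_prob_eq_one (MeasurableSet.iUnion fun k => h.meas A h1 h2 k)).2 e2
  filter_upwards [e3] with ω hω
  obtain ⟨k, hk⟩ := Set.mem_iUnion.1 hω
  exact Set.finite_of_encard_eq_coe hk

lemma isOpen_box (a b r : ℝ) : IsOpen (box a b r) := by
  have h1 : IsOpen {z : ℍ | |z.re - a| < r} := isOpen_lt (by fun_prop) continuous_const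
  have h2 : IsOpen {z : ℍ | |z.im - b| < r} := isOpen_lt (by fun_prop) continuous_const
  exact h1.inter h2

lemma bounded_box {a b r : ℝ} (h : r + 1 / 2 ≤ b) : Bornology.IsBounded (box a b r) := by
  rw [Metric.isBounded_iff]
  refine ⟨(2 * r + 2 * r) / (1 / 2), fun z hz w hw => (dist_le_dist_coe_div_sqrt z w).trans ?_⟩
  obtain ⟨z1, z2⟩ := hz
  obtain ⟨w1, w2⟩ := hw
  rw [abs_lt] at z1 z2 w1 w2
  have e1 : dist (z : ℂ) w ≤ 2 * r + 2 * r := by
    rw [dist_eq_norm]
    refine (Complex.norm_le_abs_re_add_abs_im _).trans (add_le_add ?_ ?_)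
    · simp only [Complex.sub_re, coe_re]; rw [abs_le]; constructor <;> linarith
    · simp only [Complex.sub_im, coe_im]; rw [abs_le]; constructor <;> linarith
  have e2 : 1 / 2 ≤ √(z.im * w.im) := by
    refine le_sqrt_of_sq_le ?_
    nlinarith
  exact div_le_div₀ (by linarith) e1 (by norm_num) e2

lemma vol_pos {U : Set ℍ} (hU : IsOpen U) (hne : U.Nonempty) : 0 < volume U := by
  rw [volume_eq_lintegral]
  have ho : IsOpen (UpperHalfPlane.coe '' U) := isOpenEmbedding_coe.isOpenMap U hU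
  rw [setLIntegral_pos_iff (by fun_prop)]
  refine lt_of_lt_of_le (ho.measure_pos volume (hne.image _)) (measure_mono ?_)
  rintro _ ⟨z, hz, rfl⟩
  refine ⟨?_, z, hz, rfl⟩
  have := z.im_pos.ne'
  simp [this]

lemma vol_vadd (n : ℤ) (s : Set ℍ) : volume ((fun z : ℍ => (n : ℝ) +ᵥ z) ⁻¹' s) = volume s := by
  have := measure_preimage_smul (μ := (volume : Measure ℍ))
    ((ModularGroup.T ^ n : Matrix.SpecialLinearGroup (Fin 2) ℤ) : GL (Fin 2) ℝ) s
  rw [← this]
  congr 2
  ext1 z
  rw [← modular_T_zpow_smul]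
  rfl

lemma box_vadd (n : ℤ) (a b r : ℝ) :
    (fun z : ℍ => ((-n : ℤ) : ℝ) +ᵥ z) ⁻¹' box a b r = box (n + a) b r := by
  ext z
  simp only [box, Set.mem_preimage, Set.mem_setOf_eq, vadd_re, vadd_im]
  rw [show ((-n : ℤ) : ℝ) + z.re - a = z.re - (n + a) by push_cast; ring]

abbrev J (M : ℕ) := Option (Finset.Icc (-(M : ℤ)) M × Finset.Icc (-(M : ℤ)) M)

def B (M : ℕ) (a : ℝ) : J M → Set ℍ
  | none => box a (M + 1) (M + 1 / 2) \
      ⋃ x : Finset.Icc (-(M : ℤ)) M × Finset.Icc (-(M : ℤ)) M,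
        box (a + (x.1 : ℤ)) (M + 1 + (x.2 : ℤ)) (1 / 20)
  | some x => box (a + (x.1 : ℤ)) (M + 1 + (x.2 : ℤ)) (1 / 20)

def ka (M : ℕ) : J M → ℕ
  | none => 0
  | some _ => 1

lemma B_meas (M : ℕ) (a : ℝ) (j : J M) : MeasurableSet (B M a j) := by
  cases j with
  | none => exact (isOpen_box _ _ _).measurableSet.diff
              (MeasurableSet.iUnion fun x => (isOpen_box _ _ _).measurableSet)
  | some x => exact (isOpen_box _ _ _).measurableSet

lemma B_sub (M : ℕ) (a : ℝ) (j : J M) : B M a j ⊆ box a (M + 1) (M + 1 / 2) := by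
  cases j with
  | none => exact Set.diff_subset
  | some x =>
    rintro z ⟨h1, h2⟩
    obtain ⟨⟨i, hi⟩, ⟨l, hl⟩⟩ := x
    rw [Finset.mem_Icc] at hi hl
    have a1 : -(M : ℝ) ≤ i := by exact_mod_cast hi.1
    have a2 : (i : ℝ) ≤ M := by exact_mod_cast hi.2
    have a3 : -(M : ℝ) ≤ l := by exact_mod_cast hl.1
    have a4 : (l : ℝ) ≤ M := by exact_mod_cast hl.2
    simp only [abs_lt] at h1 h2
    constructor <;> (rw [abs_lt]; constructor <;> linarith)

lemma B_bdd (M : ℕ) (a : ℝ) (j : J M) : Bornology.IsBounded (B M a j) :=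
  (bounded_box (by linarith)).subset (B_sub M a j)

lemma B_disj (M : ℕ) (a : ℝ) (i j : J M) (h : i ≠ j) : Disjoint (B M a i) (B M a j) := by
  rw [Set.disjoint_left]
  intro z hi hj
  cases i with
  | none =>
    cases j with
    | none => exact h rfl
    | some y => exact hi.2 (Set.mem_iUnion.2 ⟨y, hj⟩)
  | some x =>
    cases j with
    | none => exact hj.2 (Set.mem_iUnion.2 ⟨x, hi⟩)
    | some y =>
      apply h
      obtain ⟨⟨i, hi'⟩, ⟨l, hl'⟩⟩ := x
      obtain ⟨⟨i2, hi2⟩, ⟨l2, hl2⟩⟩ := y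
      obtain ⟨h1, h2⟩ := hi
      obtain ⟨h3, h4⟩ := hj
      simp only [abs_lt] at h1 h2 h3 h4
      have a1 : i < i2 + 1 := by
        have : (i : ℝ) < i2 + 1 := by linarith
        exact_mod_cast this
      have a2 : i2 < i + 1 := by
        have : (i2 : ℝ) < i + 1 := by linarith
        exact_mod_cast this
      have a3 : l < l2 + 1 := by
        have : (l : ℝ) < l2 + 1 := by linarith
        exact_mod_cast this
      have a4 : l2 < l + 1 := by
        have : (l2 : ℝ) < l + 1 := by linarith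
        exact_mod_cast this
      obtain rfl : i = i2 := by omega
      obtain rfl : l = l2 := by omega
      rfl

lemma B_vadd (M : ℕ) (n : ℤ) (j : J M) :
    (fun z : ℍ => ((-n : ℤ) : ℝ) +ᵥ z) ⁻¹' B M 0 j = B M n j := by
  cases j with
  | none =>
    simp only [B, Set.preimage_diff, Set.preimage_iUnion, box_vadd, add_zero, zero_add]
  | some x => simp only [B, box_vadd, zero_add]

lemma B_vol (M : ℕ) (n : ℤ) (j : J M) : volume (B M n j) = volume (B M 0 j) := by
  rw [← B_vadd, vol_vadd]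

lemma pois_pos (hlam : 0 < lam) (M : ℕ) (j : J M) : pois lam (B M 0 j) (ka M j) ≠ 0 := by
  refine (ENNReal.ofReal_pos.2 ?_).ne'
  cases j with
  | none => simp only [ka, pow_zero]; positivity
  | some x =>
    have h1 : 0 < volume (B M 0 (some x)) := by
      refine vol_pos (isOpen_box _ _ _) ?_
      have hl := (Finset.mem_Icc.1 x.2.2).1
      have a3 : -(M : ℝ) ≤ (x.2 : ℤ) := by exact_mod_cast hl
      refine ⟨⟨⟨0 + (x.1 : ℤ), M + 1 + (x.2 : ℤ)⟩, by change (0 : ℝ) < M + 1 + _; linarith⟩, ?_, ?_⟩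
      · change |(0 + ((x.1 : ℤ) : ℝ)) - _| < _
        simp
      · change |(M + 1 + ((x.2 : ℤ) : ℝ)) - _| < _
        simp
    have h2 : volume (B M 0 (some x)) < ⊤ := (B_bdd M 0 _).measure_lt_top
    have h3 := ENNReal.toReal_pos h1.ne' h2.ne
    positivity

lemma patch_of {S : Set ℍ} {M : ℕ} {a : ℝ} (h : ∀ j, (S ∩ B M a j).encard = ka M j) :
    Patch S M a (M + 1) := by
  constructor
  · intro i l hi hl
    have := h (some (⟨i, Finset.mem_Icc.2 (abs_le.1 hi)⟩, ⟨l, Finset.mem_Icc.2 (abs_le.1 hl)⟩))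
    exact Set.encard_eq_one.1 this
  · intro s hs hb
    have h0 : S ∩ B M a none = ∅ := Set.encard_eq_zero.1 (h none)
    by_contra hc
    have : s ∈ S ∩ B M a none := by
      refine ⟨hs, hb, fun hu => hc ?_⟩
      obtain ⟨x, hx⟩ := Set.mem_iUnion.1 hu
      exact ⟨x.1, x.2, abs_le.2 (Finset.mem_Icc.1 x.1.2), abs_le.2 (Finset.mem_Icc.1 x.2.2), hx⟩
    rw [h0] at this
    exact this

theorem IsPoissonPP.patch [IsProbabilityMeasure P] (h : IsPoissonPP P lam Pi) (hlam : 0 < lam)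
    (M : ℕ) : ∀ᵐ ω ∂P, ∃ a : ℝ, Patch (Pi ω) M a (M + 1) := by
  let off : ℕ → ℤ := fun k => k * (2 * M + 1)
  let E : ℕ → Set Ω := fun k => {ω | ∀ j, (Pi ω ∩ B M (off k) j).encard = ka M j}
  have hm : ∀ k, MeasurableSet (E k) := by
    intro k
    have : E k = ⋂ j, {ω | (Pi ω ∩ B M (off k) j).encard = ka M j} := by
      ext ω; simp [E]
    rw [this]
    exact MeasurableSet.iInter fun j => h.meas _ (B_meas _ _ _) (B_bdd _ _ _) _
  have hE : ∀ k, P (E k) = ∏ j, pois lam (B M (off k) j) (ka M j) := fun k =>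
    h.law' _ _ (B_meas _ _) (B_bdd _ _) (B_disj _ _)
  have hind : iIndepSet E P := by
    rw [iIndepSet_iff_meas_biInter hm]
    intro T
    have := h.law' (ι := T × J M) (fun x => B M (off x.1) x.2) (fun x => ka M x.2)
      (fun x => B_meas _ _ _) (fun x => B_bdd _ _ _) (by
        rintro ⟨k, j⟩ ⟨k', j'⟩ hne
        by_cases hk : k = k'
        · subst hk
          exact B_disj _ _ _ _ (fun e => hne (by rw [show j = j' from e]))
        · rw [Set.disjoint_left]
          intro z hz hz'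
          obtain ⟨h1, -⟩ := B_sub _ _ _ hz
          obtain ⟨h2, -⟩ := B_sub _ _ _ hz'
          simp only [off, abs_lt] at h1 h2
          push_cast at h1 h2
          have hM : (0 : ℝ) < 2 * M + 1 := by positivity
          apply hk
          apply Subtype.ext
          have a1 : ((k : ℕ) : ℝ) < (k' : ℕ) + 1 := by
            refine lt_of_mul_lt_mul_right ?_ hM.le
            linarith
          have a2 : ((k' : ℕ) : ℝ) < (k : ℕ) + 1 := by
            refine lt_of_mul_lt_mul_right ?_ hM.le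
            linarith
          have a3 : (k : ℕ) < (k' : ℕ) + 1 := by exact_mod_cast a1
          have a4 : (k' : ℕ) < (k : ℕ) + 1 := by exact_mod_cast a2
          omega)
    rw [Fintype.prod_prod_type] at this
    rw [← Finset.prod_coe_sort T (fun k => P (E k))]
    simp only [hE]
    rw [← this]
    congr 1
    ext ω
    simp [E]
  have hc : ∀ k, P (E k) = ∏ j, pois lam (B M 0 j) (ka M j) := by
    intro k
    rw [hE]
    refine Finset.prod_congr rfl fun j _ => ?_
    unfold pois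
    rw [B_vol]
  have hsum : ∑' k, P (E k) = ⊤ := by
    simp only [hc]
    exact ENNReal.tsum_const_eq_top_of_ne_zero
      (Finset.prod_ne_zero_iff.2 fun j _ => pois_pos hlam M j)
  have h1 := measure_limsup_eq_one hm hind hsum
  have h2 := (mem_ae_iff_prob_eq_one (MeasurableSet.measurableSet_limsup hm)).2 h1
  filter_upwards [h2] with ω hω
  obtain ⟨k, hk⟩ := (Filter.mem_limsup_iff_frequently_mem.1 hω).exists
  exact ⟨off k, patch_of hk⟩

theorem main [IsProbabilityMeasure P] (h : IsPoissonPP P lam Pi) (hlam : 0 < lam) :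
    ∀ᵐ ω ∂P, (Pi ω).Nonempty ∧ ∀ (x : Pi ω) (δ : ℝ), ∃ (y z : Pi ω)
      (p : (vorGraph (Pi ω)).Walk x y) (q : (vorGraph (Pi ω)).Walk y z)
      (r : (vorGraph (Pi ω)).Walk z x), IsGeod p ∧ IsGeod q ∧ IsGeod r ∧ ¬ IsThin δ p q r := by
  have h1 : ∀ᵐ ω ∂P, LocFin (Pi ω) :=
    ae_all_iff.2 fun n => h.finite hlam measurableSet_closedBall Metric.isBounded_closedBall
  have h2 := ae_all_iff.2 (h.patch hlam)
  filter_upwards [h1, h2] with ω hf hp
  have hne : (Pi ω).Nonempty := by
    obtain ⟨a, ha⟩ := hp 0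
    obtain ⟨p, hp⟩ := ha.1 0 0 (by simp) (by simp)
    exact ⟨p, (hp.ge (Set.mem_singleton p)).1⟩
  refine ⟨hne, fun x δ => exists_fat (hf.connected hne) (fun R => ?_) x δ⟩
  obtain ⟨a, ha⟩ := hp (2 * R + 3)
  refine ha.gpatch ?_
  push_cast
  have : (0 : ℝ) ≤ R := by positivity
  linarith

end Pool.Agent.H78Z.Vor
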