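import Mathlib

open MeasureTheory

namespace Pool.Agent.H78Z.Vor

/-- `Pi` is a Poisson point process on the hyperbolic plane (upper half-plane model, curvature -1)
with intensity `lam` times hyperbolic area: the point counts of bounded Borel sets are random
variables, and for pairwise disjoint bounded Borel sets they are independent Poisson variables. -/
structure IsPoissonPP {Ω : Type} [MeasurableSpace Ω] (P : Measure Ω) (lam : ℝ)
    (Pi : Ω → Set UpperHalfPlane) : Prop where
  meas : ∀ A : Set UpperHalfPlane, MeasurableSet A → Bornology.IsBounded A →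
    ∀ k : ℕ, MeasurableSet {ω | (Pi ω ∩ A).encard = k}
  law : ∀ (n : ℕ) (A : Fin n → Set UpperHalfPlane) (k : Fin n → ℕ),
    (∀ i, MeasurableSet (A i)) → (∀ i, Bornology.IsBounded (A i)) →
    (∀ i j, i ≠ j → Disjoint (A i) (A j)) →
    P {ω | ∀ i, (Pi ω ∩ A i).encard = k i} =
      ∏ i, ENNReal.ofReal (Real.exp (-(lam * (volume (A i)).toReal)) *
        (lam * (volume (A i)).toReal) ^ (k i) / (Nat.factorial (k i) : ℝ))

/-- The Voronoi cell of `p` with respect to `S`. -/
def cell (S : Set UpperHalfPlane) (p : UpperHalfPlane) : Set UpperHalfPlane :=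
  {z | ∀ q ∈ S, dist z p ≤ dist z q}

/-- The hyperbolic geodesic segment from `a` to `b`. -/
def seg (a b : UpperHalfPlane) : Set UpperHalfPlane :=
  {z | dist a z + dist z b = dist a b}

/-- The dual graph of the Voronoi tessellation of `S`: two distinct points of `S` are adjacent
when their cells share a geodesic segment of positive length. -/
def vorGraph (S : Set UpperHalfPlane) : SimpleGraph S where
  Adj p q := p ≠ q ∧ ∃ a b : UpperHalfPlane, a ≠ b ∧ seg a b ⊆ cell S p ∩ cell S q
  symm := ⟨fun _ _ h => ⟨h.1.symm, by
    obtain ⟨a, b, hab, h2⟩ := h.2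
    exact ⟨a, b, hab, fun z hz => ⟨(h2 hz).2, (h2 hz).1⟩⟩⟩⟩
  loopless := ⟨fun _ h => h.1 rfl⟩

/-- A walk is a geodesic when its length is the graph distance of its end points. -/
def IsGeod {V : Type} {G : SimpleGraph V} {x y : V} (p : G.Walk x y) : Prop :=
  p.length = G.dist x y

/-- Every vertex of the list `s` is at graph distance at most `δ` from a vertex of `t` or `u`. -/
def Near {V : Type} (G : SimpleGraph V) (δ : ℝ) (s t u : List V) : Prop :=
  ∀ v ∈ s, ∃ w, (w ∈ t ∨ w ∈ u) ∧ (G.dist v w : ℝ) ≤ δ

/-- The triangle with sides `p, q, r` is `δ`-thin: each side lies in the closed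
`δ`-neighbourhood of the union of the other two. -/
def IsThin {V : Type} {G : SimpleGraph V} (δ : ℝ) {x y z : V}
    (p : G.Walk x y) (q : G.Walk y z) (r : G.Walk z x) : Prop :=
  Near G δ p.support q.support r.support ∧ Near G δ q.support r.support p.support ∧
    Near G δ r.support p.support q.support

end Pool.Agent.H78Z.Vor
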